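import Pool.Agent.N214.TD.Defs

/-!
# Task LAG of project TD (helper214)
-/

set_option autoImplicit false

namespace Pool.Agent.N918.TD

open Finset Polynomial
open Pool.Agent.N214.TD (wt IsPoint)

lemma lag_key {K : Type} [Field K] {N : ℕ} {t : Fin N → K} (ht : Function.Injective t) {g : K[X]}
    (hg : g.natDegree < N) : ∑ j, wt t j * g.eval (t j) = g.coeff (N - 1) := by
  have hdeg : g.degree < (univ : Finset (Fin N)).card := by
    rw [card_univ, Fintype.card_fin]
    exact lt_of_le_of_lt degree_le_natDegree (by exact_mod_cast hg)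
  have h := Lagrange.coeff_eq_sum (s := (univ : Finset (Fin N))) (v := t) ht.injOn hdeg
  rw [card_univ, Fintype.card_fin] at h
  rw [h]
  refine sum_congr rfl fun j _ => ?_
  unfold wt
  rw [prod_inv_distrib, mul_comm, div_eq_mul_inv]

theorem lag : ∀ (K : Type) [Field K] (N n : ℕ) (t : Fin N → K) (m : Fin N → ℕ) (y : Fin N → K),
    Function.Injective t → (∀ j, m j ≠ 0) → n < N →
    (IsPoint t m n y ↔ ∃ f : K[X], f ≠ 0 ∧ f.natDegree ≤ n ∧ ∀ j, y j ^ m j = f.eval (t j)) := by
  intro K _ N n t m y ht hm hn
  have hN : 0 < N := by omega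
  constructor
  · intro hP
    set f : K[X] := Lagrange.interpolate univ t (fun j => y j ^ m j) with hf
    have hev : ∀ j, f.eval (t j) = y j ^ m j := fun j =>
      Lagrange.eval_interpolate_at_node (fun j => y j ^ m j) ht.injOn (mem_univ j)
    have hf0 : f ≠ 0 := by
      intro h0
      apply hP.ne_zero
      funext j
      have h1 := hev j
      rw [h0, eval_zero] at h1
      exact pow_eq_zero_iff (hm j) |>.1 h1.symm
    have hdeg : f.natDegree < N := by
      have h1 := Lagrange.degree_interpolate_lt (s := (univ : Finset (Fin N))) (v := t)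
        (fun j => y j ^ m j) ht.injOn
      rw [card_univ, Fintype.card_fin, ← hf, degree_eq_natDegree hf0] at h1
      exact_mod_cast h1
    refine ⟨f, hf0, ?_, fun j => (hev j).symm⟩
    by_contra hcon
    rw [not_le] at hcon
    set e := f.natDegree with he
    have hk : N - 1 - e + n + 1 < N := by omega
    have h1 := hP.eqs (N - 1 - e) hk
    have hg : (X ^ (N - 1 - e) * f : K[X]).natDegree = N - 1 := by
      rw [natDegree_mul (pow_ne_zero _ X_ne_zero) hf0, natDegree_X_pow, ← he]
      omega
    have h2 := lag_key ht (g := X ^ (N - 1 - e) * f) (by rw [hg]; omega)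
    have h3 : (X ^ (N - 1 - e) * f : K[X]).coeff (N - 1) = f.leadingCoeff := by
      have h5 : (X ^ (N - 1 - e) * f : K[X]).coeff (N - 1) =
          (X ^ (N - 1 - e) * f : K[X]).leadingCoeff := by
        rw [leadingCoeff, hg]
      rw [h5, leadingCoeff_mul, leadingCoeff_X_pow, one_mul]
    rw [h3] at h2
    have h4 : ∑ j, wt t j * (X ^ (N - 1 - e) * f : K[X]).eval (t j) =
        ∑ j, wt t j * t j ^ (N - 1 - e) * y j ^ m j := by
      refine sum_congr rfl fun j _ => ?_
      rw [eval_mul, eval_pow, eval_X, hev j]
      ring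
    rw [h4, h1] at h2
    exact hf0 (leadingCoeff_eq_zero.1 h2.symm)
  · rintro ⟨f, hf0, hfn, hev⟩
    refine ⟨?_, ?_⟩
    · intro hy
      apply hf0
      apply Polynomial.eq_zero_of_degree_lt_of_eval_index_eq_zero (s := (univ : Finset (Fin N)))
        (v := t) ht.injOn
      · rw [card_univ, Fintype.card_fin]
        exact lt_of_le_of_lt degree_le_natDegree (by exact_mod_cast lt_of_le_of_lt hfn hn)
      · intro j _
        rw [← hev j, hy]
        simp [hm j]
    · intro k hk
      have hg : (X ^ k * f : K[X]).natDegree < N - 1 := by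
        refine lt_of_le_of_lt natDegree_mul_le ?_
        rw [natDegree_X_pow]
        omega
      have h2 := lag_key ht (g := X ^ k * f) (by omega)
      rw [coeff_eq_zero_of_natDegree_lt hg] at h2
      rw [← h2]
      refine sum_congr rfl fun j _ => ?_
      rw [eval_mul, eval_pow, eval_X, ← hev j]
      ring

end Pool.Agent.N918.TD
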