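import Pool.Agent.N918.TD.LAG

/-!
# Task SUR of project TD (helper214)
-/

set_option autoImplicit false

namespace Pool.Agent.N918.TD

open Finset Polynomial
open Pool.Agent.N214.TD (wt IsPoint)

/-- over an algebraically closed field a polynomial of degree at most `n + 1` is a product of `n + 1`
polynomials of degree at most `1` -/
lemma factor {K : Type} [Field K] [IsAlgClosed K] (n : ℕ) : ∀ f : K[X], f ≠ 0 → f.natDegree ≤ n + 1 →
    ∃ g : Fin (n + 1) → K[X], (∀ i, g i ≠ 0 ∧ (g i).natDegree ≤ 1) ∧ ∏ i, g i = f := by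
  induction n with
  | zero =>
    intro f hf hn
    exact ⟨fun _ => f, fun _ => ⟨hf, hn⟩, by simp⟩
  | succ n ih =>
    intro f hf hn
    rcases Nat.eq_zero_or_pos f.natDegree with h0 | h0
    · obtain ⟨g, hg, hgf⟩ := ih f hf (by omega)
      refine ⟨Fin.cons 1 g, fun i => ?_, ?_⟩
      · refine Fin.cases ?_ (fun i => ?_) i
        · rw [Fin.cons_zero]
          exact ⟨one_ne_zero, by simp⟩
        · rw [Fin.cons_succ]
          exact hg i
      · rw [Fin.prod_univ_succ, Fin.cons_zero]
        simp only [Fin.cons_succ]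
        rw [hgf, one_mul]
    · have hdeg : f.degree ≠ 0 := by
        rw [degree_eq_natDegree hf]
        exact_mod_cast h0.ne'
      obtain ⟨a, ha⟩ := IsAlgClosed.exists_root f hdeg
      obtain ⟨q, hq⟩ := dvd_iff_isRoot.2 ha
      have hq0 : q ≠ 0 := by
        rintro rfl
        rw [mul_zero] at hq
        exact hf hq
      have hqn : q.natDegree ≤ n + 1 := by
        have h1 : f.natDegree = 1 + q.natDegree := by
          rw [hq, natDegree_mul (X_sub_C_ne_zero a) hq0, natDegree_X_sub_C]
        omega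
      obtain ⟨g, hg, hgf⟩ := ih q hq0 hqn
      refine ⟨Fin.cons (X - C a) g, fun i => ?_, ?_⟩
      · refine Fin.cases ?_ (fun i => ?_) i
        · rw [Fin.cons_zero]
          exact ⟨X_sub_C_ne_zero a, by rw [natDegree_X_sub_C]⟩
        · rw [Fin.cons_succ]
          exact hg i
      · rw [Fin.prod_univ_succ, Fin.cons_zero]
        simp only [Fin.cons_succ]
        rw [hgf, ← hq]

theorem sur : ∀ (K : Type) [Field K] [IsAlgClosed K] (N n : ℕ) (t : Fin N → K) (m : Fin N → ℕ)
    (y : Fin N → K), Function.Injective t → (∀ j, m j ≠ 0) → n < N → 1 < N → 1 ≤ n →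
    IsPoint t m n y →
    ∃ x : Fin n → Fin N → K, (∀ i, IsPoint t m 1 (x i)) ∧ ∀ j, y j = ∏ i, x i j := by
  intro K _ _ N n t m y ht hm hn hN h1n hP
  classical
  obtain ⟨n, rfl⟩ : ∃ n', n = n' + 1 := ⟨n - 1, by omega⟩
  obtain ⟨f, hf0, hfn, hev⟩ := (lag K N (n + 1) t m y ht hm hn).1 hP
  obtain ⟨g, hg, hgf⟩ := factor n f hf0 hfn
  have hr : ∀ (i : Fin (n + 1)) (j : Fin N), ∃ r : K, r ^ m j = (g i).eval (t j) := fun i j =>
    IsAlgClosed.exists_pow_nat_eq _ (Nat.pos_of_ne_zero (hm j))
  choose r hr using hr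
  have hprod : ∀ j, (∏ i, r i j) ^ m j = y j ^ m j := by
    intro j
    rw [← prod_pow, hev j, ← hgf, eval_prod]
    exact prod_congr rfl fun i _ => hr i j
  -- the correction
  set c : Fin N → K := fun j => if y j = 0 then 1 else y j / ∏ i, r i j with hc
  have hc1 : ∀ j, c j ^ m j = 1 := by
    intro j
    by_cases hy : y j = 0
    · rw [hc]
      dsimp only
      rw [if_pos hy, one_pow]
    · rw [hc]
      dsimp only
      rw [if_neg hy, div_pow, hprod j, div_self (pow_ne_zero _ hy)]
  have hc2 : ∀ j, c j * ∏ i, r i j = y j := by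
    intro j
    by_cases hy : y j = 0
    · have h1 : (∏ i, r i j) ^ m j = 0 := by
        rw [hprod j, hy, zero_pow (hm j)]
      rw [hy, (pow_eq_zero_iff (hm j)).1 h1, mul_zero]
    · have h1 : ∏ i, r i j ≠ 0 := by
        intro h0
        have h2 := hprod j
        rw [h0, zero_pow (hm j)] at h2
        exact hy ((pow_eq_zero_iff (hm j)).1 h2.symm)
      rw [hc]
      dsimp only
      rw [if_neg hy, div_mul_cancel₀ _ h1]
  refine ⟨fun i j => if i = 0 then r i j * c j else r i j, fun i => ?_, fun j => ?_⟩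
  · refine (lag K N 1 t m _ ht hm hN).2 ⟨g i, (hg i).1, (hg i).2, fun j => ?_⟩
    dsimp only
    split_ifs with hi
    · rw [mul_pow, hc1 j, mul_one, hr i j]
    · exact hr i j
  · rw [← hc2 j, Fin.prod_univ_succ, Fin.prod_univ_succ]
    dsimp only
    rw [if_pos rfl]
    have h1 : ∏ i : Fin n, (if i.succ = 0 then r i.succ j * c j else r i.succ j) =
        ∏ i : Fin n, r i.succ j := by
      refine prod_congr rfl fun i _ => ?_
      rw [if_neg (Fin.succ_ne_zero i)]
    rw [h1]
    ring

end Pool.Agent.N918.TD
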